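import Pool.Agent.P8H96.ER.Final

/-!
# Thresholds for trapping of polynomially reinforced directed walks

For the directed edge reinforced random walk with polynomial reinforcement of parameter `γ` on a
finite connected graph that is not a tree, and on the lattices of dimension at least two, the
probability of being trapped in a directed circuit is `0` for `γ ≤ c` and `1` for `γ > c`. Here
`c = 1/2` if all degrees are two, and `c = 1` otherwise.

The part `γ ≤ c` is proved in `NotTrapped`. For `γ > c`: at a vertex with total net outflow `i ≥ 1`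
the next step is along an edge that has been crossed more often forwards than backwards with
probability at least `exp (- κ i)`, where `κ` is summable. So, from any such vertex, all steps are
forward from then on with probability bounded from below. Going twice round a circuit leads to such
a vertex, and on the lattice so does going round a fresh unit square at the record times of a
coordinate. By the zero-one law of Lévy, all steps are forward from some time on. Then the range is
finite, and it remains to show that no two edges with the same origin are both crossed infinitely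
often. If the degrees are two, this follows from the conservation of the flow. If `γ > 1`, it
follows from the complex martingales `A_θ (c_n(a,b))` times the conjugate of `A_θ (c_n(a,b'))`,
where `A_θ (m)` is the product of `1 - i θ j ^ (- γ)` over `1 ≤ j < m`, as `θ` tends to infinity.
-/

set_option autoImplicit false

open MeasureTheory
open scoped ENNReal

namespace Pool.Agent.Results.MP_856411_pr.Threshold

open Pool.Agent.Results.MP_856411_pr.NotTrapped Pool.Agent.P8H96.ER

/-- The walk with polynomial reinforcement of parameter `γ` on `G` started at `v` exists, and it is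
trapped in a directed circuit with probability `p`. -/
def TrapProb {V : Type} (G : SimpleGraph V) [G.LocallyFinite] (γ : ℝ) (v : V) (p : ℝ≥0∞) : Prop :=
  (∃ (Ω : Type) (_ : MeasurableSpace Ω) (P : Measure Ω) (X : ℕ → Ω → V), IsWalk G γ v P X) ∧
  ∀ (Ω : Type) (_ : MeasurableSpace Ω) (P : Measure Ω) (X : ℕ → Ω → V), IsWalk G γ v P X →
    P {ω | Trapped G fun n => X n ω} = p

/-- The trapping probability is `0` for all `γ ≤ c` and `1` for all `γ > c`, for all starting
points. -/
def IsThreshold {V : Type} (G : SimpleGraph V) [G.LocallyFinite] (c : ℝ) : Prop :=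
  ∀ (v : V) (γ : ℝ), 0 < γ → (γ ≤ c → TrapProb G γ v 0) ∧ (c < γ → TrapProb G γ v 1)

theorem nontrivial_of_circ {V : Type} {G : SimpleGraph V} (h : Circ G) : Nontrivial V := by
  obtain ⟨m, _, u, _, hu⟩ := h
  exact ⟨⟨_, _, (hu 0).ne⟩⟩

theorem isThreshold {V : Type} {G : SimpleGraph V} [G.LocallyFinite] (hG : G.Connected)
    (hc : Circ G) {c : ℝ} (h0 : ∀ γ, γ ≤ c → γ ≤ 1 / 2 ∨ γ ≤ 1 ∧ ∃ w, G.degree w ≠ 2)
    (h1 : ∀ (v : V) (γ : ℝ), c < γ → ∀ (Ω : Type) (_ : MeasurableSpace Ω) (P : Measure Ω)
      (X : ℕ → Ω → V), IsWalk G γ v P X → P {ω | Trapped G fun n => X n ω} = 1) :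
    IsThreshold G c := by
  have := nontrivial_of_circ hc
  intro v γ hγ
  obtain ⟨m, P, hP⟩ := exists_walk G γ hG v
  refine ⟨fun h => ⟨⟨_, m, P, _, hP⟩, fun Ω _ P X hX => ?_⟩,
    fun h => ⟨⟨_, m, P, _, hP⟩, fun Ω _ P X hX => ?_⟩⟩
  · exact not_trapped G hG hγ.le (h0 γ h) hX
  · exact h1 v γ h Ω _ P X hX

theorem finite_two {V : Type} [Finite V] {G : SimpleGraph V} [G.LocallyFinite] (hG : G.Connected)
    (hT : ¬ G.IsTree) (hdeg : ∀ w, G.degree w = 2) : IsThreshold G (1 / 2) :=
  isThreshold hG (circ_of_not_isTree hG hT) (fun _ h => Or.inl h)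
    fun _ _ hγ _ _ _ _ hX => finite_trapped hG hT (Or.inr ⟨hγ, hdeg⟩) hX

theorem finite_ne_two {V : Type} [Finite V] {G : SimpleGraph V} [G.LocallyFinite]
    (hG : G.Connected) (hT : ¬ G.IsTree) (hdeg : ∃ w, G.degree w ≠ 2) : IsThreshold G 1 :=
  isThreshold hG (circ_of_not_isTree hG hT) (fun _ h => Or.inr ⟨h, hdeg⟩)
    fun _ _ hγ _ _ _ _ hX => finite_trapped hG hT (Or.inl hγ) hX

theorem not_isTree_top {n : ℕ} (hn : n = 3 ∨ n = 4) : ¬ (⊤ : SimpleGraph (Fin n)).IsTree := by
  intro h
  have h1 := h.card_edgeFinset
  rw [SimpleGraph.card_edgeFinset_top_eq_card_choose_two, Fintype.card_fin] at h1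
  rcases hn with rfl | rfl
  · revert h1; decide
  · revert h1; decide

/-- **Thresholds for trapping of polynomially reinforced directed walks.** Let `G` be a finite
connected graph that is not a tree. If all degrees of `G` are two, then `G` has the threshold `1/2`.
If some degree of `G` is not two, then `G` has the threshold `1`. The lattices of dimension at least
two have the threshold `1`. For example the complete graph on three vertices has the threshold `1/2`
and the complete graph on four vertices has the threshold `1`. -/
theorem result :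
    (∀ (V : Type) [Finite V] (G : SimpleGraph V) [G.LocallyFinite], G.Connected → ¬ G.IsTree →
      ((∀ w, G.degree w = 2) → IsThreshold G (1 / 2)) ∧
      ((∃ w, G.degree w ≠ 2) → IsThreshold G 1)) ∧
    (∀ d : ℕ, 2 ≤ d → IsThreshold (lattice d) 1) ∧
    IsThreshold (⊤ : SimpleGraph (Fin 3)) (1 / 2) ∧ IsThreshold (⊤ : SimpleGraph (Fin 4)) 1 := by
  refine ⟨fun V _ G _ hG hT => ⟨finite_two hG hT, finite_ne_two hG hT⟩, fun d hd => ?_, ?_, ?_⟩
  · exact isThreshold (lattice_connected d) (lattice_circ hd)
      (fun _ h => Or.inr ⟨h, lattice_degree hd⟩) fun _ _ hγ _ _ _ _ hX => lattice_trapped hd hγ hX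
  · refine finite_two SimpleGraph.connected_top (not_isTree_top (Or.inl rfl)) fun w => ?_
    rw [SimpleGraph.complete_graph_degree, Fintype.card_fin]
  · refine finite_ne_two SimpleGraph.connected_top (not_isTree_top (Or.inr rfl)) ⟨0, ?_⟩
    rw [SimpleGraph.complete_graph_degree, Fintype.card_fin]
    norm_num

end Pool.Agent.Results.MP_856411_pr.Threshold
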